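import Pool.Agent.R708.PS.Final

/-!
# MP_b5e7a1_al

There is a category `C` with binary coproducts (namely topological spaces) such that for all
irreducible finite directed graphs `G`, `H`, an equivalence of the categories of diagrams
satisfying the coproduct condition, `Diag^⊔_C(G) ≌ Diag^⊔_C(H)`, forces
`PS(G) = det (I - A_G) = det (I - A_H) = PS(H)`.

The definitions (`DGraph`, `Diagram`, `DiagCop` with its category structure, `Irred`, `adj`, `PS`)
are in `Pool/Agent/R708/PS/Defs.lean`.
-/

open CategoryTheory ParrySullivan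

namespace Pool.Agent.Results.MP_b5e7a1_al.TopDiagramsDetectParrySullivan

/-- Q1: yes. -/
theorem result :
    ∃ (C : Type 1) (_ : Category.{0} C) (_ : Limits.HasBinaryCoproducts C),
      ∀ (G H : DGraph) [Fintype G.V] [DecidableEq G.V] [Finite G.E]
        [Fintype H.V] [DecidableEq H.V] [Finite H.E],
        Irred G → Irred H → Nonempty (DiagCop C G ≌ DiagCop C H) → PS G = PS H :=
  ⟨TopCat.{0}, inferInstance, inferInstance, fun G H _ _ _ _ _ _ hG hH ⟨Φ⟩ => main G H hG hH Φ⟩

end Pool.Agent.Results.MP_b5e7a1_al.TopDiagramsDetectParrySullivan
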